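import Pool.Agent.H.MP_c5a801_co.Main

namespace Pool.Agent.Results.MP_c5a801_co.AllTransient

open Pool.Agent.H.MP_c5a801_co

theorem result : ∃ (V : Type) (H : SimpleGraph V) (M : Mech H),
    Infinite V ∧ H.Connected ∧ (∀ v, (H.neighborSet v).Finite) ∧
      ∀ (x0 : V) (r0 : ∀ v, H.neighborSet v) (v : V), {t | (walk M x0 r0 t).1 = v}.Finite := by
  obtain ⟨M, hM⟩ := exists_mech
  exact ⟨W, G, M, inferInstance, conn, fin_nbr, transient M hM⟩

end Pool.Agent.Results.MP_c5a801_co.AllTransient
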